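import Pool.Agent.Y234.AM.Stmt

/-!
# Ample line subbundles of the tangent bundle of a variety which is not a projective space

Over every algebraically closed field `k` of characteristic two and for every `m ≥ 1`, the smooth
quadric `V : z² + ∑ x_i y_i = 0` (`i = 0, …, m`) of dimension `2 m + 1 ≥ 3` has a morphism
`O_V(1) → T_V` that vanishes at no point, and `V` is not isomorphic to any projective space.
-/

namespace Pool.Agent.Results.MP_63fcef_ag.CharTwoQuadrics

open Pool.Agent.H824

/-- For every algebraically closed field `k` of characteristic `2` and every `m ≥ 1`, the quadric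
`V` with ideal generated by `z² + ∑ x_i y_i` is smooth of dimension `2 m + 1`, it has a morphism
from the (ample) hyperplane bundle `O_V(1)` to its tangent sheaf `T_V` that is nonzero on the fibre
at every point, and it is not isomorphic to any projective space. -/
theorem result (k : Type) [Field k] [IsAlgClosed k] [CharP k 2] (m : ℕ) (hm : 1 ≤ m) :
    ∃ V : ProjVariety k (QVar m), V.ideal = Ideal.span {quadForm k m} ∧ V.dim = 2 * m + 1 ∧
      V.IsSmooth ∧
      (∃ Φ : V.RatSec →ₗ[V.FunField] V.RatVec, V.IsMorphism Φ ∧ ∀ z ∈ V.points, V.NonzeroAt Φ z) ∧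
      ∀ n : ℕ, ¬ V.IsIsoTo (projSpace k (Fin (n + 1))) :=
  Pool.Agent.Y234.AM.main k m hm

end Pool.Agent.Results.MP_63fcef_ag.CharTwoQuadrics
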